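import Pool.Agent.H18.D2.End
import Pool.Agent.H31.W.H46.D2.NoLb
import Pool.Agent.H3.W.Nlp
import Pool.Agent.H31.W1.H80.GEN.Chn

/-!
# The end: the label of the target from the labels of the tube

`EH`: the facts on the lines of an event. `en_lab`: if the differences of the chart of the ball and
the tube labels at the nodes are small on the window of the ball, then the chart of the ball is a
label of the target, closed on the window `w`, on the natural boxes of the radius `w + Q + 1`.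
-/

set_option autoImplicit false

namespace Pool.W.END18

open Pool.END18

open Finset Real MvPolynomial
open Pool.Agent.H49.Ent Pool.Agent.H32.Dense Pool.STK Pool.KA Pool.KSAT Pool.K2S Pool.PB Pool.S6C
open Pool.GEN Pool.CHT Pool.D2R Pool.D2G30 Pool.V1E Pool.ISO
open Pool.PB.Trl (rt rt_mem t_rt)
open Pool.NLB46 (Lab)


/-- **The gradient on a box**, in the direction of a coordinate. -/
theorem grad_box (r K D : ℕ) : ∃ C : ℝ, 1 ≤ C ∧ ∀ {m : ℕ} {c : ℕ → Fin m}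
    {ψ : ℕ → MvPolynomial (Option (Fin m)) ℝ} {Q : MvPolynomial (Option (Fin m)) ℝ}
    {g : ℕ → ℕ} {a e : ℕ} {M : ℝ} {x : Option (Fin m) → ℝ}, Set.InjOn c (Set.Iio r) →
    (∀ l, (ψ l).totalDegree ≤ K) → (∀ l, Pool.GEN.DepC c l (ψ l)) → Pool.GEN.DepC c r Q → Q.totalDegree ≤ D →
    0 ≤ M → (∀ b, Pool.GEN.NBx c ψ g a (x none) r b → |eval b Q| ≤ M) →
    (∀ l < r, |x (some (c l)) - eval x (ψ l)| ≤ 1 / 2 ^ g l) →
    (∀ i < r, ∀ l < i, |eval x (pderiv (some (c l)) (ψ i))| ≤ 2 ^ (e + Pool.W.GEN.nlp g l i)) →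
    ∀ l < r, |eval x (pderiv (some (c l)) Q)| ≤ C * M * 2 ^ (e + (Finset.range r).sup g) := by
  classical
  obtain ⟨C, hC, h⟩ := Pool.D2R.box_nat r K D
  refine ⟨C, hC, ?_⟩
  intro m c ψ Q g a e M x hc hψ hψd hQ hQD hM hbox hx hlip l hl
  obtain ⟨S, hS⟩ : ∃ S, S = (Finset.range r).sup g := ⟨_, rfl⟩
  rw [← hS]
  obtain ⟨δ, hδ⟩ : ∃ δ : ℝ, δ = 1 / 2 ^ (e + S) := ⟨_, rfl⟩
  have hδ0 : 0 < δ := by rw [hδ]; positivity
  obtain ⟨W, hW⟩ : ∃ W : Option (Fin m) → ℝ, W = fun o => if o = some (c l) then δ else 0 :=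
    ⟨_, rfl⟩
  have hdd : ∀ R : MvPolynomial (Option (Fin m)) ℝ,
      Pool.D2R.dd R x W = eval x (pderiv (some (c l)) R) * δ := by
    intro R
    unfold Pool.D2R.dd
    rw [Finset.sum_eq_single (some (c l))]
    · rw [hW]
      show _ * (if some (c l) = some (c l) then δ else 0) = _
      rw [if_pos rfl]
    · intro o _ ho
      rw [hW]
      show _ * (if o = some (c l) then δ else 0) = 0
      rw [if_neg ho, mul_zero]
    · intro h'
      exact absurd (Finset.mem_univ _) h'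
  have h1 := (h hc hψ hψd hQ hQD hM hbox hx W (by
    rw [hW]
    show |if (none : Option (Fin m)) = some (c l) then δ else 0| ≤ _
    rw [if_neg (by simp), abs_zero]
    positivity) (fun i hi => by
    rw [hdd]
    rcases lt_trichotomy i l with h2 | h2 | h2
    · have h3 : W (some (c i)) = 0 := by
        rw [hW]
        refine if_neg fun h' => ?_
        have := hc (show i < r from hi) (show l < r from hl) (Option.some_injective _ h')
        omega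
      rw [h3, Pool.D2R.pd_zero (hψd i) (fun j hj h' => by
        have := hc (show j < r by omega) (show l < r from hl) h'
        omega), zero_mul, sub_zero, abs_zero]
      positivity
    · subst h2
      have h3 : W (some (c i)) = δ := by
        rw [hW]
        exact if_pos rfl
      rw [h3, Pool.D2R.pd_zero (hψd i) (fun j hj h' => by
        have := hc (show j < r by omega) (show i < r from hl) h'
        omega), zero_mul, sub_zero, abs_of_pos hδ0, hδ]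
      refine Pool.PB.inv_mono ?_
      have : g i ≤ S := by
        rw [hS]
        exact Finset.le_sup (f := g) (Finset.mem_range.2 (by omega))
      omega
    · have h3 : W (some (c i)) = 0 := by
        rw [hW]
        refine if_neg fun h' => ?_
        have := hc (show i < r from hi) (show l < r from hl) (Option.some_injective _ h')
        omega
      rw [h3, zero_sub, abs_neg, abs_mul, abs_of_pos hδ0]
      refine (mul_le_mul_of_nonneg_right (hlip i hi l h2) hδ0.le).trans ?_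
      rw [hδ, mul_one_div, div_le_div_iff₀ (by positivity) (by positivity), one_mul, ← pow_add]
      refine pow_le_pow_right₀ (by norm_num) ?_
      unfold Pool.W.GEN.nlp
      have h4 : (Finset.range (i + 1)).sup g ≤ S := by
        rw [hS]
        exact Finset.sup_mono (Finset.range_subset_range.2 (by omega))
      have h5 : g i ≤ (Finset.range (i + 1)).sup g :=
        Finset.le_sup (f := g) (Finset.mem_range.2 (by omega))
      omega)).1
  rw [hdd, abs_mul, abs_of_pos hδ0] at h1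
  have h2 : |eval x (pderiv (some (c l)) Q)| = |eval x (pderiv (some (c l)) Q)| * δ *
      2 ^ (e + S) := by
    rw [hδ]
    field_simp
  rw [h2]
  exact mul_le_mul_of_nonneg_right h1 (by positivity)

variable {m J : ℕ}


/-- **The facts on the lines of an event**, without the target: frame of the window `w - q₀`,
re-centred at the radius `w + Q`; `G₂`: a chart of the ball, closed on the window `w + Q` (`H₂`);
`H₁`: a closed chart of the window `w`; centre `z₀ + z₁ u` of the tube. -/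
structure EN (F : Pool.KA.Fam m J) (c : ℕ → Fin m) (s gc : ℕ → ℕ) (d Dc w q₀ Q e X : ℕ)
    (A : F.Ω → Prop) (G₀ : Pool.GEN.PtT F → ℕ → MvPolynomial (Option (Fin m)) ℝ)
    (G₂ : Pool.GEN.PtT F → MvPolynomial (Option (Fin m)) ℝ)
    (H₀ : Pool.GEN.LnT F → ℕ → MvPolynomial (Option (Fin m)) ℝ)
    (H₁ H₂ : Pool.GEN.LnT F → MvPolynomial (Option (Fin m)) ℝ) (z₀ z₁ : Pool.GEN.LnT F → Fin d → ℝ) : Prop where
  inj : Set.InjOn c (Set.Iio d)
  Dc1 : 1 ≤ Dc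
  wQ : w + Q ≤ J
  qw : q₀ ≤ w
  cl : ∀ ω, A ω → G₂ (Pool.PB.ptr F J ω) = H₂ (Pool.KSAT.slam F (w + Q) ω)
  dG₀ : ∀ y l, (G₀ y l).totalDegree ≤ Dc
  dH₀ : ∀ L l, (H₀ L l).totalDegree ≤ Dc
  pH₀ : ∀ L l, Pool.GEN.DepC c l (H₀ L l)
  dH₁ : ∀ L, (H₁ L).totalDegree ≤ Dc
  pH₁ : ∀ L, Pool.GEN.DepC c d (H₁ L)
  dG₂ : ∀ y, (G₂ y).totalDegree ≤ Dc
  pG₂ : ∀ y, Pool.GEN.DepC c d (G₂ y)
  dH₂ : ∀ L, (H₂ L).totalDegree ≤ Dc
  pH₂ : ∀ L, Pool.GEN.DepC c d (H₂ L)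
  top : Pool.W.GEN.ChOK F c d (fun _ => Dc) (w + Q) (w - q₀) e gc A (Pool.END18.Gf F c G₀) (Pool.END18.Hf F c H₀)
  gcs : ∀ l < d, Q + s l ≤ gc l + X
  own : ∀ ω, A ω → ∀ u : ℝ, |u| ≤ 2 → ∀ i : Fin d,
    |2 ^ Q * (Pool.V1E.hL c s d w (Pool.V1E.frH F d q₀ H₀ (Pool.KSAT.slam F w ω)) (Pool.KSAT.slam F w ω) (some i)).eval u -
      (z₀ (Pool.KSAT.slam F w ω) i + z₁ (Pool.KSAT.slam F w ω) i * u)| ≤ 2


section det

variable {F : Pool.KA.Fam m J} {c : ℕ → Fin m} {s gc : ℕ → ℕ} {K d Dc w q₀ Q e X p : ℕ}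
  {A : F.Ω → Prop} {G₀ : Pool.GEN.PtT F → ℕ → MvPolynomial (Option (Fin m)) ℝ}
  {G₂ : Pool.GEN.PtT F → MvPolynomial (Option (Fin m)) ℝ}
  {H₀ : Pool.GEN.LnT F → ℕ → MvPolynomial (Option (Fin m)) ℝ}
  {H₁ H₂ : Pool.GEN.LnT F → MvPolynomial (Option (Fin m)) ℝ} {z₀ z₁ : Pool.GEN.LnT F → Fin d → ℝ}

/-- The heights in the tube of the points of the box. -/
theorem EN.enx_bd (h : Pool.W.END18.EN F c s gc d Dc w q₀ Q e X A G₀ G₂ H₀ H₁ H₂ z₀ z₁) {ω : F.Ω}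
    (hω : A ω) {b : Option (Fin m) → ℝ}
    (hb : Pool.GEN.NBx c (Pool.END18.Gf F c G₀ (Pool.PB.ptr F J ω)) gc (w + Q) (F.t ω) d b) (i : Fin d) :
    |Pool.END18.enx c s d w Q (Pool.V1E.frH F d q₀ H₀ (Pool.KSAT.slam F w ω)) (z₀ (Pool.KSAT.slam F w ω)) (z₁ (Pool.KSAT.slam F w ω))
      (Pool.KSAT.slam F w ω).2.2 b i| ≤ 2 ^ (X + 2) := by
  have hwJ : w ≤ J := (Nat.le_add_right w Q).trans h.wQ
  have hco : Pool.D2R.co q₀ (Pool.KSAT.slam F w ω) = Pool.KSAT.slam F (w - q₀) ω := by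
    have := Pool.D2R.co_slam F (Nat.sub_le w q₀) hwJ ω
    rwa [Nat.sub_sub_self h.qw] at this
  obtain ⟨u, hu⟩ : ∃ u : ℝ, u = 2 ^ w * b none - ((Pool.KSAT.slam F w ω).2.2 : ℝ) := ⟨_, rfl⟩
  have hu1 : u = Pool.PB.Trl.rt F w ω + 2 ^ w * (b none - F.t ω) := by
    have h1 := Pool.PB.Trl.t_rt F hwJ ω
    have h2 : (2 : ℝ) ^ w * F.t ω = ((Pool.KSAT.slam F w ω).2.2 : ℝ) + Pool.PB.Trl.rt F w ω := by
      rw [h1]
      field_simp
    rw [hu]
    linarith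
  have hu2 : |u| ≤ 2 := by
    rw [hu1]
    refine (abs_add_le _ _).trans ?_
    have h1 := Pool.PB.Trl.rt_mem F w ω
    rw [abs_of_nonneg h1.1, abs_mul, abs_of_pos (show (0 : ℝ) < 2 ^ w by positivity)]
    have h2 : (2 : ℝ) ^ w * |b none - F.t ω| ≤ 2 ^ w * (1 / 2 ^ (w + Q)) :=
      mul_le_mul_of_nonneg_left hb.1 (by positivity)
    have h3 : (2 : ℝ) ^ w * (1 / 2 ^ (w + Q)) ≤ 1 := by
      rw [mul_one_div, div_le_one (by positivity)]
      exact pow_le_pow_right₀ (by norm_num) (Nat.le_add_right _ _)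
    linarith [h1.2]
  -- the height of the line
  have hfr : Pool.V1E.frH F d q₀ H₀ (Pool.KSAT.slam F w ω) i = H₀ (Pool.D2R.co q₀ (Pool.KSAT.slam F w ω)) i := Pool.END18.trn_lt _ i.isLt
  have hown := h.own ω hω u hu2 i
  have hLe : (Pool.V1E.hL c s d w (Pool.V1E.frH F d q₀ H₀ (Pool.KSAT.slam F w ω)) (Pool.KSAT.slam F w ω) (some i)).eval u =
      2 ^ s i * Pool.GEN.eso (c i) (fun s => H₀ s i) (Pool.D2R.co q₀ (Pool.KSAT.slam F w ω)) (b none) := by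
    show ((Pool.D2G30.hcur c s (Pool.V1E.frH F d q₀ H₀ (Pool.KSAT.slam F w ω)) d (Pool.GEN.lc w (Pool.KSAT.slam F w ω))) (some i)).eval u = _
    unfold Pool.D2G30.hcur
    rw [Polynomial.eval_mul, Polynomial.eval_C, Polynomial.eval_sub, Pool.D2G30.eval_aev, hfr]
    have e1 : ((Pool.KSAT.slam F w ω).2.2 : ℝ) + u = 2 ^ w * b none := by rw [hu]; ring
    have e2 : ∀ o, (Pool.GEN.lc w (Pool.KSAT.slam F w ω) o).eval u = Pool.GEN.blo (Pool.KSAT.slam F w ω) (b none) o := by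
      intro o
      rw [Pool.GEN.eval_lc', e1]
      congr 1
      field_simp
    rw [e2, funext e2]
    rfl
  -- the three differences
  have hi : (i : ℕ) < d := i.isLt
  have h1 := hb.2 i hi
  have h2 := h.top.agr ω hω i hi b (hb.mono le_rfl hi.le)
  have h3 : eval b (Pool.END18.Hf F c H₀ (Pool.KSAT.slam F (w - q₀) ω) i) = eval b (H₀ (Pool.D2R.co q₀ (Pool.KSAT.slam F w ω)) i) +
      Pool.GEN.eso (c i) (fun s => H₀ s i) (Pool.D2R.co q₀ (Pool.KSAT.slam F w ω)) (b none) := by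
    rw [hco]
    exact Pool.GEN.eval_Hno _ _ _ _
  have e3 : Pool.END18.enx c s d w Q (Pool.V1E.frH F d q₀ H₀ (Pool.KSAT.slam F w ω)) (z₀ (Pool.KSAT.slam F w ω)) (z₁ (Pool.KSAT.slam F w ω))
      (Pool.KSAT.slam F w ω).2.2 b i = (2 ^ Q *
        (Pool.V1E.hL c s d w (Pool.V1E.frH F d q₀ H₀ (Pool.KSAT.slam F w ω)) (Pool.KSAT.slam F w ω) (some i)).eval u -
        (z₀ (Pool.KSAT.slam F w ω) i + z₁ (Pool.KSAT.slam F w ω) i * u)) + 2 ^ (Q + s i) *
      ((b (some (c i)) - eval b (Pool.END18.Gf F c G₀ (Pool.PB.ptr F J ω) i)) +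
        (eval b (Pool.END18.Gf F c G₀ (Pool.PB.ptr F J ω) i) - eval b (Pool.END18.Hf F c H₀ (Pool.KSAT.slam F (w - q₀) ω) i))) := by
    unfold Pool.END18.enx
    rw [hLe, hfr, h3, hu, pow_add]
    ring
  rw [e3]
  refine (abs_add_le _ _).trans ?_
  have h4 : |2 ^ (Q + s i) * ((b (some (c i)) - eval b (Pool.END18.Gf F c G₀ (Pool.PB.ptr F J ω) i)) +
        (eval b (Pool.END18.Gf F c G₀ (Pool.PB.ptr F J ω) i) - eval b (Pool.END18.Hf F c H₀ (Pool.KSAT.slam F (w - q₀) ω) i)))| ≤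
      2 * 2 ^ X := by
    rw [abs_mul, abs_of_pos (show (0 : ℝ) < 2 ^ (Q + s i) by positivity)]
    have h5 := (abs_add_le (b (some (c i)) - eval b (Pool.END18.Gf F c G₀ (Pool.PB.ptr F J ω) i))
      (eval b (Pool.END18.Gf F c G₀ (Pool.PB.ptr F J ω) i) - eval b (Pool.END18.Hf F c H₀ (Pool.KSAT.slam F (w - q₀) ω) i))).trans
      (add_le_add h1 h2)
    refine (mul_le_mul_of_nonneg_left h5 (by positivity)).trans ?_
    have h6 : (2 : ℝ) ^ (Q + s i) * (1 / 2 ^ gc i + 1 / 2 ^ gc i) =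
        2 * (2 ^ (Q + s i) / 2 ^ gc i) := by ring
    rw [h6]
    refine mul_le_mul_of_nonneg_left ?_ (by norm_num)
    rw [div_le_iff₀ (by positivity), ← pow_add]
    refine pow_le_pow_right₀ (by norm_num) ?_
    have := h.gcs i hi
    omega
  have h7 : (1 : ℝ) ≤ 2 ^ X := one_le_pow₀ (by norm_num)
  have h8 : (2 : ℝ) ^ (X + 2) = 2 ^ X * 4 := by ring
  rw [h8]
  linarith


/-- The line in the window of the ball, and its window. -/
theorem EN.sl (h : Pool.W.END18.EN F c s gc d Dc w q₀ Q e X A G₀ G₂ H₀ H₁ H₂ z₀ z₁) (ω : F.Ω) :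
    Pool.D2R.co Q (Pool.KSAT.slam F (w + Q) ω) = Pool.KSAT.slam F w ω := by
  have := Pool.D2R.co_slam F (Nat.le_add_right w Q) h.wQ ω
  rwa [Nat.add_sub_cancel_left] at this

/-- **The chart of the ball and the label of the line** on the natural box. -/
theorem EN.agr (h : Pool.W.END18.EN F c s gc d Dc w q₀ Q e X A G₀ G₂ H₀ H₁ H₂ z₀ z₁) {D : ℕ} (hK : 1 ≤ K)
    (hDK : (Dc * (Dc + 1) ^ d) ≤ K) {Pt : Pool.GEN.LnT F → Pool.V1E.Gr K d → Polynomial ℝ}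
    (hPt : ∀ L β, (Pt L β).natDegree ≤ D) {ω : F.Ω} (hω : A ω) {μ : ℝ}
    (hμ : ∀ β, ∀ j ≤ max K D,
      |(Pool.END18.Rt F c s K d w q₀ Q H₀ H₁ H₂ z₀ z₁ Pt β (Pool.KSAT.slam F (w + Q) ω)).coeff j| ≤ μ)
    {b : Option (Fin m) → ℝ}
    (hb : Pool.GEN.NBx c (Pool.END18.Gf F c G₀ (Pool.PB.ptr F J ω)) gc (w + Q) (F.t ω) d b) :
    |eval b (G₂ (Pool.PB.ptr F J ω)) - eval b (Pool.END18.Ht F c s K d w q₀ Q H₀ H₁ z₀ z₁ Pt (Pool.KSAT.slam F w ω))| ≤
      Pool.END18.cE K d D * 2 ^ (X * K * d) * μ / 2 ^ s d := by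
  have hμ0 : 0 ≤ μ := (abs_nonneg _).trans (hμ (fun _ => 0) 0 (Nat.zero_le _))
  have hx := h.enx_bd hω hb
  obtain ⟨τ, hτ⟩ : ∃ τ : ℝ, τ = 2 ^ (w + Q) * b none - ((Pool.KSAT.slam F (w + Q) ω).2.2 : ℝ) := ⟨_, rfl⟩
  have hτ' : b none = (((Pool.KSAT.slam F (w + Q) ω).2.2 : ℝ) + τ) / 2 ^ (w + Q) := by
    rw [hτ]
    field_simp
    ring
  have hτ2 : |τ| ≤ 2 := by
    have h1 := Pool.PB.Trl.t_rt F h.wQ ω
    have h2 : (2 : ℝ) ^ (w + Q) * F.t ω = ((Pool.KSAT.slam F (w + Q) ω).2.2 : ℝ) + Pool.PB.Trl.rt F (w + Q) ω := by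
      rw [h1]
      field_simp
    have h3 : τ = Pool.PB.Trl.rt F (w + Q) ω + 2 ^ (w + Q) * (b none - F.t ω) := by
      rw [hτ]
      linarith
    rw [h3]
    refine (abs_add_le _ _).trans ?_
    have h4 := Pool.PB.Trl.rt_mem F (w + Q) ω
    rw [abs_of_nonneg h4.1, abs_mul, abs_of_pos (show (0 : ℝ) < 2 ^ (w + Q) by positivity)]
    have h5 : (2 : ℝ) ^ (w + Q) * |b none - F.t ω| ≤ 2 ^ (w + Q) * (1 / 2 ^ (w + Q)) :=
      mul_le_mul_of_nonneg_left hb.1 (by positivity)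
    have h6 : (2 : ℝ) ^ (w + Q) * (1 / 2 ^ (w + Q)) = 1 := by field_simp
    linarith [h4.2]
  have hP : ∀ l, (Pool.V1E.frH F d q₀ H₀ (Pool.KSAT.slam F w ω) l).totalDegree ≤ Dc := Pool.END18.deg_trn (h.dH₀ _)
  have hPd : ∀ l, Pool.GEN.DepC c l (Pool.V1E.frH F d q₀ H₀ (Pool.KSAT.slam F w ω) l) := Pool.END18.dep_trn (h.pH₀ _)
  have hsub : Pool.GEN.DepC c d (H₂ (Pool.KSAT.slam F (w + Q) ω) - H₁ (Pool.KSAT.slam F w ω)) := by
    intro b b' hn hb'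
    rw [map_sub, map_sub, h.pH₂ _ b b' hn hb', h.pH₁ _ b b' hn hb']
  have hdeg : (H₂ (Pool.KSAT.slam F (w + Q) ω) - H₁ (Pool.KSAT.slam F w ω)).totalDegree ≤ Dc :=
    (totalDegree_sub _ _).trans (max_le (h.dH₂ _) (h.dH₁ _))
  have key := Pool.END18.enH_sub (w := w) (Q := Q) (s := s) hK h.inj hPd hsub
    ((Pool.D2G30.deg_pull hP hdeg).trans hDK) (Pool.KSAT.slam F w ω).2.2 (Pool.KSAT.slam F (w + Q) ω).2.2 (z₀ (Pool.KSAT.slam F w ω))
    (z₁ (Pool.KSAT.slam F w ω)) (Pt (Pool.KSAT.slam F w ω)) b hτ'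
  have e1 : ∀ β, Pool.END18.enR c s K d Q (w + Q) (Pool.KSAT.slam F (w + Q) ω).2.2
      (((Pool.KSAT.slam F (w + Q) ω).2.2 : ℝ) / 2 ^ Q - ((Pool.KSAT.slam F w ω).2.2 : ℝ)) (z₀ (Pool.KSAT.slam F w ω))
      (z₁ (Pool.KSAT.slam F w ω)) (Pool.V1E.frH F d q₀ H₀ (Pool.KSAT.slam F w ω))
      (H₂ (Pool.KSAT.slam F (w + Q) ω) - H₁ (Pool.KSAT.slam F w ω)) (Pt (Pool.KSAT.slam F w ω)) β =
      Pool.END18.Rt F c s K d w q₀ Q H₀ H₁ H₂ z₀ z₁ Pt β (Pool.KSAT.slam F (w + Q) ω) := by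
    intro β
    unfold Pool.END18.Rt
    rw [h.sl ω]
  simp only [e1] at key
  have hRd : ∀ β, (Pool.END18.Rt F c s K d w q₀ Q H₀ H₁ H₂ z₀ z₁ Pt β (Pool.KSAT.slam F (w + Q) ω)).natDegree ≤
      max K D := by
    intro β
    rw [← e1]
    exact Pool.END18.deg_enR _ _ _ _ _ ((Pool.D2G30.deg_pull hP hdeg).trans hDK) (hPt _) β
  have h5 : |2 ^ s d * (eval b (G₂ (Pool.PB.ptr F J ω)) -
      eval b (Pool.END18.Ht F c s K d w q₀ Q H₀ H₁ z₀ z₁ Pt (Pool.KSAT.slam F w ω)))| ≤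
      Pool.END18.cE K d D * 2 ^ (X * K * d) * μ := by
    rw [h.cl ω hω]
    unfold Pool.END18.Ht
    rw [key]
    refine (Finset.abs_sum_le_sum_abs _ _).trans ?_
    have h6 : ∀ β ∈ (univ : Finset (Pool.V1E.Gr K d)), |Pool.D2G30.ell K β (Pool.END18.enx c s d w Q
        (Pool.V1E.frH F d q₀ H₀ (Pool.KSAT.slam F w ω)) (z₀ (Pool.KSAT.slam F w ω)) (z₁ (Pool.KSAT.slam F w ω)) (Pool.KSAT.slam F w ω).2.2 b) *
        (Pool.END18.Rt F c s K d w q₀ Q H₀ H₁ H₂ z₀ z₁ Pt β (Pool.KSAT.slam F (w + Q) ω)).eval τ| ≤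
        ((2 * (K + 1) * 4) ^ K) ^ d * 2 ^ (X * K * d) *
          (((max K D : ℕ) + 1) * 2 ^ (max K D) * μ) := by
      intro β _
      rw [abs_mul]
      exact mul_le_mul (Pool.END18.ell_X hx) (Pool.END18.eval_coef (hRd β) (hμ β) hτ2) (abs_nonneg _) (by positivity)
    refine (Finset.sum_le_card_nsmul _ _ _ h6).trans (le_of_eq ?_)
    rw [Finset.card_univ, Pool.D2G30.card_grid, nsmul_eq_mul]
    unfold Pool.END18.cE
    ring
  rw [abs_mul, abs_of_pos (show (0 : ℝ) < 2 ^ s d by positivity)] at h5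
  rw [le_div_iff₀ (by positivity)]
  linarith

/-- The label of the line and the closed chart on the natural box. -/
theorem EN.near (h : Pool.W.END18.EN F c s gc d Dc w q₀ Q e X A G₀ G₂ H₀ H₁ H₂ z₀ z₁) {D : ℕ}
    {Pt : Pool.GEN.LnT F → Pool.V1E.Gr K d → Polynomial ℝ} (hPt : ∀ L β, (Pt L β).natDegree ≤ D) {ω : F.Ω}
    (hω : A ω) {μ : ℝ} (hμ : ∀ β, ∀ j ≤ max K D, |(Pt (Pool.KSAT.slam F w ω) β).coeff j| ≤ μ)
    {b : Option (Fin m) → ℝ}
    (hb : Pool.GEN.NBx c (Pool.END18.Gf F c G₀ (Pool.PB.ptr F J ω)) gc (w + Q) (F.t ω) d b) :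
    |eval b (Pool.END18.Ht F c s K d w q₀ Q H₀ H₁ z₀ z₁ Pt (Pool.KSAT.slam F w ω)) - eval b (H₁ (Pool.KSAT.slam F w ω))| ≤
      Pool.END18.cE K d D * 2 ^ (X * K * d) * μ / 2 ^ s d := by
  have hμ0 : 0 ≤ μ := (abs_nonneg _).trans (hμ (fun _ => 0) 0 (Nat.zero_le _))
  have hwJ : w ≤ J := (Nat.le_add_right w Q).trans h.wQ
  have hx := h.enx_bd hω hb
  have hu2 : |2 ^ w * b none - ((Pool.KSAT.slam F w ω).2.2 : ℝ)| ≤ 2 := by
    have h1 := Pool.PB.Trl.t_rt F hwJ ω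
    have h2 : (2 : ℝ) ^ w * F.t ω = ((Pool.KSAT.slam F w ω).2.2 : ℝ) + Pool.PB.Trl.rt F w ω := by
      rw [h1]
      field_simp
    have h3 : 2 ^ w * b none - ((Pool.KSAT.slam F w ω).2.2 : ℝ) =
        Pool.PB.Trl.rt F w ω + 2 ^ w * (b none - F.t ω) := by linarith
    rw [h3]
    refine (abs_add_le _ _).trans ?_
    have h4 := Pool.PB.Trl.rt_mem F w ω
    rw [abs_of_nonneg h4.1, abs_mul, abs_of_pos (show (0 : ℝ) < 2 ^ w by positivity)]
    have h5 : (2 : ℝ) ^ w * |b none - F.t ω| ≤ 2 ^ w * (1 / 2 ^ (w + Q)) :=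
      mul_le_mul_of_nonneg_left hb.1 (by positivity)
    have h6 : (2 : ℝ) ^ w * (1 / 2 ^ (w + Q)) ≤ 1 := by
      rw [mul_one_div, div_le_one (by positivity)]
      exact pow_le_pow_right₀ (by norm_num) (Nat.le_add_right _ _)
    linarith [h4.2]
  unfold Pool.END18.Ht
  rw [Pool.END18.eval_enH, add_sub_cancel_left, abs_mul, abs_of_pos (show (0 : ℝ) < 1 / 2 ^ s d by positivity)]
  have h5 : |∑ β, Pool.D2G30.ell K β (Pool.END18.enx c s d w Q (Pool.V1E.frH F d q₀ H₀ (Pool.KSAT.slam F w ω)) (z₀ (Pool.KSAT.slam F w ω))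
      (z₁ (Pool.KSAT.slam F w ω)) (Pool.KSAT.slam F w ω).2.2 b) *
      (Pt (Pool.KSAT.slam F w ω) β).eval (2 ^ w * b none - ((Pool.KSAT.slam F w ω).2.2 : ℝ))| ≤
      Pool.END18.cE K d D * 2 ^ (X * K * d) * μ := by
    refine (Finset.abs_sum_le_sum_abs _ _).trans ?_
    have h6 : ∀ β ∈ (univ : Finset (Pool.V1E.Gr K d)), |Pool.D2G30.ell K β (Pool.END18.enx c s d w Q
        (Pool.V1E.frH F d q₀ H₀ (Pool.KSAT.slam F w ω)) (z₀ (Pool.KSAT.slam F w ω)) (z₁ (Pool.KSAT.slam F w ω)) (Pool.KSAT.slam F w ω).2.2 b) *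
        (Pt (Pool.KSAT.slam F w ω) β).eval (2 ^ w * b none - ((Pool.KSAT.slam F w ω).2.2 : ℝ))| ≤
        ((2 * (K + 1) * 4) ^ K) ^ d * 2 ^ (X * K * d) *
          (((max K D : ℕ) + 1) * 2 ^ (max K D) * μ) := by
      intro β _
      rw [abs_mul]
      exact mul_le_mul (Pool.END18.ell_X hx) (Pool.END18.eval_coef ((hPt _ β).trans (le_max_right _ _)) (hμ β) hu2)
        (abs_nonneg _) (by positivity)
    refine (Finset.sum_le_card_nsmul _ _ _ h6).trans (le_of_eq ?_)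
    rw [Finset.card_univ, Pool.D2G30.card_grid, nsmul_eq_mul]
    unfold Pool.END18.cE
    ring
  calc 1 / 2 ^ s d * _ ≤ 1 / 2 ^ s d * (Pool.END18.cE K d D * 2 ^ (X * K * d) * μ) :=
        mul_le_mul_of_nonneg_left h5 (by positivity)
    _ = _ := by ring


end det

end Pool.W.END18
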