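import Pool.Agent.H18.D2.Enf
import Pool.Agent.H31.W.H18.D2.End
import Pool.Agent.H31.W1.H80.GEN.Chn

/-!
# The end: the labels of the tube on the window of the ball

`en_coef`: the differences of the chart of the ball and the tube labels at the nodes are small at
most times of the window of the ball, hence they are small polynomials. `end_fam`: the label of the
target.
-/

set_option autoImplicit false

namespace Pool.W.END18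

open Pool.END18

open Finset Real MvPolynomial
open Pool.Agent.H49.Ent Pool.Agent.H32.Dense Pool.STK Pool.KA Pool.KSAT Pool.K2S Pool.PB Pool.S6C
open Pool.GEN Pool.CHT Pool.D2R Pool.D2G30 Pool.V1E Pool.ISO
open Pool.PB.Trl (rt rt_mem t_rt)
open Pool.NLB46 (Lab)
open Pool.BFL (Pb)

section law

variable {m J : ℕ} {F : Pool.KA.Fam m J} {c : ℕ → Fin m} {s gc : ℕ → ℕ} {K d Dc D w q₀ Q e X p : ℕ}
  {A : F.Ω → Prop} {G₀ : Pool.GEN.PtT F → ℕ → MvPolynomial (Option (Fin m)) ℝ}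
  {G₂ : Pool.GEN.PtT F → MvPolynomial (Option (Fin m)) ℝ}
  {H₀ : Pool.GEN.LnT F → ℕ → MvPolynomial (Option (Fin m)) ℝ}
  {H₁ H₂ : Pool.GEN.LnT F → MvPolynomial (Option (Fin m)) ℝ} {z₀ z₁ : Pool.GEN.LnT F → Fin d → ℝ}

/-- The difference at a node at the sample. -/
theorem EN.Rt_at (h : Pool.W.END18.EN F c s gc d Dc w q₀ Q e X A G₀ G₂ H₀ H₁ H₂ z₀ z₁)
    (Pt : Pool.GEN.LnT F → Pool.V1E.Gr K d → Polynomial ℝ) (β : Pool.V1E.Gr K d) (ω : F.Ω) (k : Fin d → ℝ) :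
    (Pool.END18.Rt F c s K d w q₀ Q H₀ H₁ H₂ z₀ z₁ Pt β (Pool.KSAT.slam F (w + Q) ω)).eval (Pool.PB.Trl.rt F (w + Q) ω) =
      eval (fun i => z₀ (Pool.KSAT.slam F w ω) i + z₁ (Pool.KSAT.slam F w ω) i * Pool.PB.Trl.rt F w ω - k i + Pool.D2G30.nd K β i)
        (C (2 ^ s d) * Pool.D2G30.tub (F.t ω) (fun i => k i / 2 ^ Q) (1 / 2 ^ Q)
          (Pool.D2G30.pull c s (Pool.V1E.frH F d q₀ H₀ (Pool.KSAT.slam F w ω)) d
            (H₂ (Pool.KSAT.slam F (w + Q) ω) - H₁ (Pool.KSAT.slam F w ω)))) -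
      (Pt (Pool.KSAT.slam F w ω) β).eval (Pool.PB.Trl.rt F w ω) := by
  have hwJ : w ≤ J := (Nat.le_add_right w Q).trans h.wQ
  have h1 := Pool.PB.Trl.t_rt F hwJ ω
  have h2 := Pool.PB.Trl.t_rt F h.wQ ω
  have e1 : ((Pool.KSAT.slam F (w + Q) ω).2.2 : ℝ) / 2 ^ Q - ((Pool.KSAT.slam F w ω).2.2 : ℝ) +
      Pool.PB.Trl.rt F (w + Q) ω / 2 ^ Q = Pool.PB.Trl.rt F w ω := by
    have h3 : (2 : ℝ) ^ w * F.t ω = ((Pool.KSAT.slam F w ω).2.2 : ℝ) + Pool.PB.Trl.rt F w ω := by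
      rw [h1]
      field_simp
    have h4 : (2 : ℝ) ^ w * F.t ω = (((Pool.KSAT.slam F (w + Q) ω).2.2 : ℝ) + Pool.PB.Trl.rt F (w + Q) ω) / 2 ^ Q := by
      rw [h2, pow_add]
      field_simp
    have h5 : (((Pool.KSAT.slam F (w + Q) ω).2.2 : ℝ) + Pool.PB.Trl.rt F (w + Q) ω) / 2 ^ Q =
        ((Pool.KSAT.slam F (w + Q) ω).2.2 : ℝ) / 2 ^ Q + Pool.PB.Trl.rt F (w + Q) ω / 2 ^ Q := by ring
    linarith
  unfold Pool.END18.Rt
  rw [h.sl ω, Pool.END18.eval_enR, e1, ← h2]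
  congr 1
  rw [map_mul, eval_C, Pool.D2G30.eval_tub]
  have e2 : Pool.D2G30.tpt (F.t ω) (fun i => (z₀ (Pool.KSAT.slam F w ω) i + z₁ (Pool.KSAT.slam F w ω) i * Pool.PB.Trl.rt F w ω) / 2 ^ Q)
      (1 / 2 ^ Q) (Pool.D2G30.nd K β) = Pool.D2G30.tpt (F.t ω) (fun i => k i / 2 ^ Q) (1 / 2 ^ Q)
        (fun i => z₀ (Pool.KSAT.slam F w ω) i + z₁ (Pool.KSAT.slam F w ω) i * Pool.PB.Trl.rt F w ω - k i + Pool.D2G30.nd K β i) := by
    funext o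
    cases o with
    | none => rfl
    | some i =>
      show (z₀ (Pool.KSAT.slam F w ω) i + z₁ (Pool.KSAT.slam F w ω) i * Pool.PB.Trl.rt F w ω) / 2 ^ Q + 1 / 2 ^ Q * Pool.D2G30.nd K β i =
        k i / 2 ^ Q + 1 / 2 ^ Q * (z₀ (Pool.KSAT.slam F w ω) i + z₁ (Pool.KSAT.slam F w ω) i * Pool.PB.Trl.rt F w ω - k i +
          Pool.D2G30.nd K β i)
      ring
  rw [e2]

end law


/-- **The differences at the nodes are small polynomials** on the window of the ball. -/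
theorem en_coefN (d Dc K D : ℕ) (hK : 1 ≤ K) (hDK : Dc * (Dc + 1) ^ d ≤ K) {ε : ℝ} (hε : 0 < ε) :
    ∃ δ : ℝ, 0 < δ ∧ δ ≤ ε ∧ ∃ Q₀ : ℕ, ∀ {m J : ℕ} {F : Pool.KA.Fam m J} {c : ℕ → Fin m} {s gc : ℕ → ℕ}
    {w q₀ Q e X MB : ℕ} {A : F.Ω → Prop} {G₀ : Pool.GEN.PtT F → ℕ → MvPolynomial (Option (Fin m)) ℝ}
    {G₂ : Pool.GEN.PtT F → MvPolynomial (Option (Fin m)) ℝ}
    {H₀ : Pool.GEN.LnT F → ℕ → MvPolynomial (Option (Fin m)) ℝ}
    {H₁ H₂ : Pool.GEN.LnT F → MvPolynomial (Option (Fin m)) ℝ} {z₀ z₁ : Pool.GEN.LnT F → Fin d → ℝ}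
    {ζ : Type} {Z : F.Ω → ζ} {Pf : ζ → MvPolynomial (Fin d) ℝ} {s' k : F.Ω → Fin d → ℝ}
    {ξ : Pool.GEN.LnT F → Fin d → ℝ} {n : Pool.GEN.LnT F → Polynomial ℝ} {Pt : Pool.GEN.LnT F → Pool.V1E.Gr K d → Polynomial ℝ},
    Q₀ ≤ Q → Q ≤ MB → w + 2 * Q ≤ J → 0 < Pool.K2S.Pe F.p A →
    Pool.W.END18.EN F c s gc d Dc w q₀ Q e X A G₀ G₂ H₀ H₁ H₂ z₀ z₁ →
    (∀ z, (Pf z).totalDegree ≤ K) →
    (∀ ω, A ω → 0 < F.p ω → ∀ β : Pool.V1E.Gr K d, |eval (Pool.D2G30.nd K β) (Pf (Z ω))| ≤ 2 ^ (δ * Q)) →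
    (∀ ω, A ω → 0 < F.p ω → ∀ i, |s' ω i| ≤ 1) →
    (∀ ω, A ω → 0 < F.p ω → Pf (Z ω) = C (2 ^ s d) * Pool.D2G30.tub (F.t ω) (fun i => k ω i / 2 ^ Q)
      (1 / 2 ^ Q) (Pool.D2G30.pull c s (Pool.V1E.frH F d q₀ H₀ (Pool.KSAT.slam F w ω)) d
        (H₂ (Pool.KSAT.slam F (w + Q) ω) - H₁ (Pool.KSAT.slam F w ω)))) →
    (∀ ω, A ω → 0 < F.p ω → ∀ i, |k ω i + s' ω i -
      (z₀ (Pool.KSAT.slam F w ω) i + z₁ (Pool.KSAT.slam F w ω) i * Pool.PB.Trl.rt F w ω)| ≤ 2 ^ (δ * Q) / 2 ^ MB) →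
    Pool.V1E.ImC K d D Q MB (2 ^ (J - w)) δ (Pool.Agent.H49.Ent.cond F.p A True) (Pool.KSAT.slam F w) (Pool.V1E.twF F w) Z Pf
      s' ξ n Pt →
    (J : ℝ) * Real.log 2 - δ * Q ≤ Pool.Agent.H49.Ent.CH (Pool.Agent.H49.Ent.cond F.p A True) F.T
      (fun ω => (F.l ω, F.Z ω)) →
    ∃ B : F.Ω → Prop, Pool.K2S.Sub B A ∧ Pool.K2S.Pe F.p A ≤ 2 * Pool.K2S.Pe F.p B ∧
      (∀ ω, B ω → ∀ β, ∀ j ≤ max K D,
        |(Pool.END18.Rt F c s K d w q₀ Q H₀ H₁ H₂ z₀ z₁ Pt β (Pool.KSAT.slam F (w + Q) ω)).coeff j| ≤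
          2 ^ (ε * Q) / 2 ^ MB) ∧
      (∀ ω, B ω → ∀ β, ∀ j ≤ max K D, |(Pt (Pool.KSAT.slam F w ω) β).coeff j| ≤ 2 ^ (ε * Q)) := by
  classical
  obtain ⟨Cv, hCv, hval⟩ := Pool.END18.val_lip K d hK
  obtain ⟨N, hN⟩ : ∃ N : ℕ, N = (K + 1) ^ d := ⟨_, rfl⟩
  have hN1 : (1 : ℝ) ≤ N := by
    rw [hN]
    exact_mod_cast Nat.one_le_pow _ _ (Nat.succ_pos K)
  obtain ⟨η, hη⟩ : ∃ η : ℝ, η = min (ε / 4) (1 / (2 * N)) := ⟨_, rfl⟩
  have hη0 : 0 < η := by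
    rw [hη]
    exact lt_min (by positivity) (by positivity)
  have hη1 : η ≤ ε / 4 := by rw [hη]; exact min_le_left _ _
  have hη2 : η ≤ 1 / (2 * N) := by rw [hη]; exact min_le_right _ _
  obtain ⟨δ₁, hδ₁, Q₁, H⟩ := Pool.V1E.coef_small (max K D) hη0
  obtain ⟨Q₂, hQ₂⟩ := Pool.V1E.const_le (C := Cv + 1) (ε := ε / 4) (by positivity)
  obtain ⟨δ, hδ⟩ : ∃ δ : ℝ, δ = min (min δ₁ (ε / 8)) (1 / 2) := ⟨_, rfl⟩
  have d1 : δ ≤ δ₁ := by rw [hδ]; exact (min_le_left _ _).trans (min_le_left _ _)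
  have d2 : δ ≤ ε / 8 := by rw [hδ]; exact (min_le_left _ _).trans (min_le_right _ _)
  have d3 : δ ≤ 1 / 2 := by rw [hδ]; exact min_le_right _ _
  have hδ0 : 0 < δ := by
    rw [hδ]
    exact lt_min (lt_min hδ₁ (by positivity)) (by norm_num)
  refine ⟨δ, hδ0, by linarith, max Q₁ Q₂, ?_⟩
  intro m J F c s gc w q₀ Q e X MB A G₀ G₂ H₀ H₁ H₂ z₀ z₁ ζ Z Pf s' k ξ n Pt hQ hMB hwJ2 hA h
    hdgf hbdf hs1 hPf hks hIm htf
  have hQ1 := (le_max_left Q₁ Q₂).trans hQ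
  have hQ2 := hQ₂ Q ((le_max_right Q₁ Q₂).trans hQ)
  have hQ0 : (0 : ℝ) ≤ Q := Nat.cast_nonneg Q
  have hwJ : w ≤ J := by omega
  obtain ⟨q, hq⟩ : ∃ q, q = Pool.Agent.H49.Ent.cond F.p A True := ⟨_, rfl⟩
  have hqL : Pool.STK.IsLaw q := by
    rw [hq]
    exact ⟨Pool.Agent.H49.Ent.cond_nonneg F.isLaw.nonneg A True, Pool.Agent.H49.Ent.sum_cond F.p A hA.ne'⟩
  have hqpos : ∀ ω, 0 < q ω → A ω ∧ 0 < F.p ω := by
    intro ω hω
    rw [hq] at hω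
    unfold Pool.Agent.H49.Ent.cond at hω
    by_cases hAω : A ω
    · refine ⟨hAω, ?_⟩
      by_contra hcon
      have h0 : F.p ω = 0 := le_antisymm (not_lt.1 hcon) (F.isLaw.nonneg ω)
      rw [h0] at hω
      simp at hω
    · rw [if_neg (fun h' => hAω (of_eq_true h'))] at hω
      exact absurd hω (lt_irrefl _)
  rw [← hq] at hIm htf
  have hPtd := hIm.deg
  -- the values at the samples
  obtain ⟨lam, hlam⟩ : ∃ lam : ℝ, lam = (Cv + 1) * (2 ^ (2 * δ * Q) / 2 ^ MB) := ⟨_, rfl⟩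
  have hlam0 : 0 < lam := by rw [hlam]; positivity
  obtain ⟨Bad, hBad⟩ : ∃ Bad : F.Ω → Prop, Bad = fun ω => ∃ β : Pool.V1E.Gr K d, 2 ^ (δ * Q) / 2 ^ MB <
    |Pool.V1E.vt K Z Pf s' ω β - (Pt (Pool.KSAT.slam F w ω) β).eval (Pool.V1E.uu (2 ^ (J - w)) (Pool.V1E.twF F w) ω)| := ⟨_, rfl⟩
  have huu : ∀ v ω, Pool.V1E.uu (2 ^ (J - v)) (Pool.V1E.twF F v) ω = Pool.PB.Trl.rt F v ω := fun v ω => by
    unfold Pool.V1E.uu Pool.PB.Trl.rt Pool.V1E.twF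
    push_cast
    rfl
  have hgood : ∀ ω, 0 < q ω → ¬ Bad ω → ∀ β,
      |(Pool.END18.Rt F c s K d w q₀ Q H₀ H₁ H₂ z₀ z₁ Pt β (Pool.KSAT.slam F (w + Q) ω)).eval
        (Pool.V1E.uu (2 ^ (J - (w + Q))) (Pool.V1E.twF F (w + Q)) ω)| ≤ lam := by
    intro ω hω hb β
    obtain ⟨hAω, hpω⟩ := hqpos ω hω
    rw [hBad] at hb
    push Not at hb
    rw [huu, h.Rt_at Pt β ω (k ω), ← hPf ω hAω hpω]
    have b1 := hb β
    rw [huu] at b1
    obtain ⟨x, hx⟩ : ∃ x : Fin d → ℝ, x = fun i => z₀ (Pool.KSAT.slam F w ω) i +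
      z₁ (Pool.KSAT.slam F w ω) i * Pool.PB.Trl.rt F w ω - k ω i + Pool.D2G30.nd K β i := ⟨_, rfl⟩
    obtain ⟨κ, hκ⟩ : ∃ κ : ℝ, κ = 2 ^ (δ * Q) / 2 ^ MB := ⟨_, rfl⟩
    have hκ0 : 0 ≤ κ := by rw [hκ]; positivity
    have hκ1 : κ ≤ 1 := by
      rw [hκ, div_le_one (by positivity), ← Real.rpow_natCast]
      refine Real.rpow_le_rpow_of_exponent_le (by norm_num) ?_
      have h1 : (Q : ℝ) ≤ MB := by exact_mod_cast hMB
      nlinarith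
    have hxy : ∀ i, |x i - (s' ω i + Pool.D2G30.nd K β i)| ≤ κ := by
      intro i
      have h1 := hks ω hAω hpω i
      rw [← hκ] at h1
      rw [hx, ← abs_neg]
      have e1 : -(z₀ (Pool.KSAT.slam F w ω) i + z₁ (Pool.KSAT.slam F w ω) i * Pool.PB.Trl.rt F w ω - k ω i + Pool.D2G30.nd K β i -
          (s' ω i + Pool.D2G30.nd K β i)) = k ω i + s' ω i - (z₀ (Pool.KSAT.slam F w ω) i +
          z₁ (Pool.KSAT.slam F w ω) i * Pool.PB.Trl.rt F w ω) := by ring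
      show |-(z₀ (Pool.KSAT.slam F w ω) i + z₁ (Pool.KSAT.slam F w ω) i * Pool.PB.Trl.rt F w ω - k ω i + Pool.D2G30.nd K β i -
          (s' ω i + Pool.D2G30.nd K β i))| ≤ κ
      rw [e1]
      exact h1
    have hnd : ∀ i, |Pool.D2G30.nd K β i| ≤ 1 := by
      intro i
      unfold Pool.D2G30.nd
      have hK0 : (0 : ℝ) < K := by exact_mod_cast hK
      rw [abs_of_nonneg (by positivity), div_le_one hK0]
      exact_mod_cast Nat.lt_succ_iff.1 (β i).isLt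
    have hy : ∀ i, |s' ω i + Pool.D2G30.nd K β i| ≤ 2 := fun i =>
      (abs_add_le _ _).trans (by linarith [hs1 ω hAω hpω i, hnd i])
    have hx3 : ∀ i, |x i| ≤ 3 := by
      intro i
      have e1 : x i = (x i - (s' ω i + Pool.D2G30.nd K β i)) + (s' ω i + Pool.D2G30.nd K β i) := by ring
      rw [e1]
      exact (abs_add_le _ _).trans (by linarith [hxy i, hy i])
    have hv := hval (Pf (Z ω)) (hdgf _) _ (hbdf ω hAω hpω) x (fun i => s' ω i + Pool.D2G30.nd K β i) κ hκ0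
      hx3 (fun i => (hy i).trans (by norm_num)) hxy
    have e2 : Pool.V1E.vt K Z Pf s' ω β = eval (fun i => s' ω i + Pool.D2G30.nd K β i) (Pf (Z ω)) := rfl
    rw [e2] at b1
    rw [← hκ] at b1
    have e3 : eval x (Pf (Z ω)) - (Pt (Pool.KSAT.slam F w ω) β).eval (Pool.PB.Trl.rt F w ω) =
        (eval x (Pf (Z ω)) - eval (fun i => s' ω i + Pool.D2G30.nd K β i) (Pf (Z ω))) +
        (eval (fun i => s' ω i + Pool.D2G30.nd K β i) (Pf (Z ω)) -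
          (Pt (Pool.KSAT.slam F w ω) β).eval (Pool.PB.Trl.rt F w ω)) := by ring
    rw [← hx, e3]
    refine (abs_add_le _ _).trans ((add_le_add hv b1).trans ?_)
    rw [hlam]
    have h2 : (2 : ℝ) ^ (2 * δ * Q) = 2 ^ (δ * Q) * 2 ^ (δ * Q) := by
      rw [← Real.rpow_add (by norm_num)]
      congr 1
      ring
    have h3 : (1 : ℝ) ≤ 2 ^ (δ * Q) := Pool.V1E.rpow_ge_one (by positivity)
    rw [h2, hκ]
    have h4 : (0 : ℝ) < 2 ^ (δ * Q) / 2 ^ MB := by positivity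
    have h5 : (2 : ℝ) ^ (δ * Q) * 2 ^ (δ * Q) / 2 ^ MB = 2 ^ (δ * Q) * (2 ^ (δ * Q) / 2 ^ MB) := by
      ring
    rw [h5]
    nlinarith
  -- the time is full in the window of the ball
  have hTl : ∀ ω, F.T ω < 2 ^ J := F.tim
  have hwt := Pool.Agent.H40.BFL.window_time hqL F.T (fun ω => (F.l ω, F.Z ω)) J (w + Q)
    (by omega) hTl (δ * Q) htf
  have hCHT : Pool.Agent.H49.Ent.CH q (fun ω => F.T ω % 2 ^ (J - (w + Q)))
      (fun ω => ((F.l ω, F.Z ω), F.T ω / 2 ^ (J - (w + Q)))) =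
      Pool.Agent.H49.Ent.CH q (Pool.V1E.twF F (w + Q)) (Pool.KSAT.slam F (w + Q)) := by
    refine Pool.Agent.H32.Dense.CH_congr hqL.nonneg ?_ ?_ ?_ ?_
    · intro ω ω' _ _ e'
      exact (Prod.ext_iff.mp e').1
    · intro ω ω' _ _ e'
      exact (Prod.ext_iff.mp e').1
    · intro ω ω' _ _ e'
      simp only [Prod.mk.injEq] at e'
      unfold Pool.KSAT.slam Pool.KA.Fam.T1
      rw [e'.1.1, e'.1.2, e'.2]
    · intro ω ω' _ _ e'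
      unfold Pool.KSAT.slam Pool.KA.Fam.T1 at e'
      simp only [Prod.mk.injEq] at e' ⊢
      exact ⟨⟨e'.1, e'.2.1⟩, e'.2.2⟩
  rw [hCHT] at hwt
  have hlogN : Real.log ((2 ^ (J - (w + Q)) : ℕ) : ℝ) = ((J : ℝ) - ((w + Q : ℕ) : ℝ)) *
      Real.log 2 := by
    push_cast
    rw [Real.log_pow, Nat.cast_sub (by omega : w + Q ≤ J)]
    push_cast
    ring
  have hfull : Real.log ((2 ^ (J - (w + Q)) : ℕ) : ℝ) - δ₁ * Q ≤
      Pool.Agent.H49.Ent.CH q (Pool.V1E.twF F (w + Q)) (Pool.KSAT.slam F (w + Q)) := by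
    rw [hlogN]
    have : δ * Q ≤ δ₁ * Q := mul_le_mul_of_nonneg_right d1 hQ0
    linarith
  have hPbBad : Pool.BFL.Pb q Bad ≤ δ := by rw [hBad]; exact hIm.cls
  have hcf : ∀ β, Pool.BFL.Pb q (fun ω => ∃ j, j ≤ max K D ∧ 2 ^ (η * Q) * lam <
      |(Pool.END18.Rt F c s K d w q₀ Q H₀ H₁ H₂ z₀ z₁ Pt β (Pool.KSAT.slam F (w + Q) ω)).coeff j|) ≤ η := by
    intro β
    have hNl : 2 ^ Q ≤ 2 ^ (J - (w + Q)) := Nat.pow_le_pow_right (by norm_num) (by omega)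
    refine H hQ1 hqL hNl (fun ω _ => Nat.mod_lt _ (by positivity)) hfull
      (fun L' => Pool.END18.Rt F c s K d w q₀ Q H₀ H₁ H₂ z₀ z₁ Pt β L') (fun L' => ?_) hlam0 ?_
    · refine Pool.END18.deg_enR _ _ _ _ _ ((Pool.D2G30.deg_pull (Pool.END18.deg_trn (h.dH₀ _)) (K := Dc) ?_).trans hDK)
        (hPtd _) β
      exact (totalDegree_sub _ _).trans (max_le (h.dH₂ _) (h.dH₁ _))
    · refine (Pool.V1E.Pb_imp hqL.nonneg fun ω hω hh => ?_).trans (hPbBad.trans d1)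
      by_contra hcon
      exact absurd hh (not_lt.mpr (hgood ω hω hcon β))
  -- the event
  obtain ⟨E, hE⟩ : ∃ E : F.Ω → Prop, E = fun ω => ∃ β : Pool.V1E.Gr K d, ∃ j, j ≤ max K D ∧
    2 ^ (η * Q) * lam <
      |(Pool.END18.Rt F c s K d w q₀ Q H₀ H₁ H₂ z₀ z₁ Pt β (Pool.KSAT.slam F (w + Q) ω)).coeff j| := ⟨_, rfl⟩
  have hEb : Pool.BFL.Pb q E ≤ 1 / 2 := by
    have h1 : Pool.BFL.Pb q E ≤ ∑ β : Pool.V1E.Gr K d, Pool.BFL.Pb q (fun ω => ∃ j, j ≤ max K D ∧ 2 ^ (η * Q) * lam <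
        |(Pool.END18.Rt F c s K d w q₀ Q H₀ H₁ H₂ z₀ z₁ Pt β (Pool.KSAT.slam F (w + Q) ω)).coeff j|) := by
      rw [hE]
      exact Pool.END18.Pb_exE hqL.nonneg _
    refine h1.trans ((Finset.sum_le_card_nsmul _ _ _ fun β _ => hcf β).trans ?_)
    rw [Finset.card_univ, Pool.D2G30.card_grid, ← hN, nsmul_eq_mul]
    calc (N : ℝ) * η ≤ N * (1 / (2 * N)) := mul_le_mul_of_nonneg_left hη2 (by linarith)
      _ = 1 / 2 := by field_simp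
  refine ⟨fun ω => A ω ∧ (¬ E ω ∧ 0 < F.p ω), fun ω hω => hω.1, ?_, ?_, ?_⟩
  · have h2 : Pool.K2S.Pe q (fun ω => ¬ E ω ∧ 0 < F.p ω) = Pool.K2S.Pe F.p (fun ω => A ω ∧ (¬ E ω ∧ 0 < F.p ω)) /
        Pool.K2S.Pe F.p A := by
      rw [hq]
      exact Pool.K2S.Pe_cond _
    have h3 : 1 / 2 ≤ Pool.K2S.Pe q (fun ω => ¬ E ω ∧ 0 < F.p ω) := by
      have h4 : Pool.K2S.Pe q (fun ω => ¬ E ω ∧ 0 < F.p ω) = Pool.BFL.Pb q (fun ω => ¬ E ω ∧ 0 < F.p ω) :=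
        Pool.V1E.Pb_law _ _
      have h5 := Pool.V1E.Pb_or hqL.nonneg (G := fun _ => True) (A := E)
        (B := fun ω => ¬ E ω ∧ 0 < F.p ω) fun ω hω _ => by
          by_cases hEω : E ω
          · exact Or.inl hEω
          · exact Or.inr ⟨hEω, (hqpos ω hω).2⟩
      have h6 : Pool.BFL.Pb q (fun _ => True) = 1 := by
        unfold Pool.BFL.Pb
        simp only [if_true]
        exact hqL.sum_one
      rw [h4]
      linarith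
    rw [h2, le_div_iff₀ hA] at h3
    linarith
  · intro ω hω β j hj
    have h2 : ¬ E ω := hω.2.1
    rw [hE] at h2
    push Not at h2
    refine (h2 β j hj).trans ?_
    rw [hlam]
    have h3 : (2 : ℝ) ^ (η * Q) * ((Cv + 1) * (2 ^ (2 * δ * Q) / 2 ^ MB)) =
        2 ^ (η * Q) * ((Cv + 1) * 2 ^ (2 * δ * Q)) / 2 ^ MB := by ring
    rw [h3]
    refine div_le_div_of_nonneg_right ?_ (by positivity)
    have h4 : (Cv + 1) * 2 ^ (2 * δ * Q) ≤ 2 ^ (ε / 4 * Q) * 2 ^ (2 * δ * Q) :=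
      mul_le_mul_of_nonneg_right hQ2 (by positivity)
    refine (mul_le_mul_of_nonneg_left h4 (by positivity)).trans ?_
    rw [← Real.rpow_add (by norm_num), ← Real.rpow_add (by norm_num)]
    refine Real.rpow_le_rpow_of_exponent_le (by norm_num) ?_
    have h5 : η * Q ≤ ε / 4 * Q := mul_le_mul_of_nonneg_right hη1 hQ0
    have h6 : 2 * δ * Q ≤ ε / 4 * Q := mul_le_mul_of_nonneg_right (by linarith) hQ0
    nlinarith
  · intro ω hω β j _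
    have hqω : 0 < q ω := by
      rw [hq]
      unfold Pool.Agent.H49.Ent.cond
      rw [if_pos (eq_true hω.1)]
      exact div_pos hω.2.2 hA
    refine (hIm.bd ω hqω β j).trans (Real.rpow_le_rpow_of_exponent_le (by norm_num) ?_)
    exact mul_le_mul_of_nonneg_right (by linarith) hQ0


end Pool.W.END18
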