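import Pool.Agent.H18.D2.Enu
import Pool.Agent.H31.W.H18.D2.Enf
import Pool.Agent.H3.W.Nlp
import Pool.Agent.H31.W1.H80.GEN.Chn

/-!
# The end over one more coordinate

`lab_gen`: a label from a chart of the ball which agrees with a closed label, and is near a closed chart
with natural gradient. `en_labU`, `end_u`: the label of `N = c (d + 1)` over the chain `V0`,
`u = c d`: the label of the tube for `N - C (p) (u - H_u (p))`, plus `C (p) (u - H_u (p))`.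
-/

set_option autoImplicit false

namespace Pool.W.END18

open Pool.END18

open Finset Real MvPolynomial
open Pool.Agent.H49.Ent Pool.Agent.H32.Dense Pool.STK Pool.KA Pool.KSAT Pool.K2S Pool.PB Pool.S6C
open Pool.GEN Pool.CHT Pool.D2R Pool.D2G30 Pool.V1E Pool.ISO
open Pool.PB.Trl (rt rt_mem t_rt)
open Pool.NLB46 (Lab chok_snoc)
open Pool.BFL (Pb)

variable {m J : ℕ}

/-- **A label**, from a chart of the ball. -/
theorem lab_gen (i Dc D₁ : ℕ) (hi : 1 ≤ i) : ∃ C₀ : ℝ, 1 ≤ C₀ ∧ ∀ {m J : ℕ} {F : Pool.KA.Fam m J}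
    {c : ℕ → Fin m} {gc : ℕ → ℕ} {a w w' e e' p p' D₂ : ℕ} {B : F.Ω → Prop}
    {G : Pool.GEN.PtT F → ℕ → MvPolynomial (Option (Fin m)) ℝ}
    {H : Pool.GEN.LnT F → ℕ → MvPolynomial (Option (Fin m)) ℝ}
    {G₂ : Pool.GEN.PtT F → MvPolynomial (Option (Fin m)) ℝ}
    {H₁ Ht : Pool.GEN.LnT F → MvPolynomial (Option (Fin m)) ℝ} {α M : ℝ},
    Set.InjOn c (Set.Iio i) → Pool.W.GEN.ChOK F c i (fun _ => Dc) a w' e gc B G H →
    (∀ y, (G₂ y).totalDegree ≤ D₁) → (∀ y, Pool.GEN.DepC c i (G₂ y)) →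
    (∀ L, (H₁ L).totalDegree ≤ D₁) → (∀ L, Pool.GEN.DepC c i (H₁ L)) →
    (∀ L, (Ht L).totalDegree ≤ D₂) → (∀ L, Pool.GEN.DepC c i (Ht L)) → D₁ ≤ D₂ →
    (∀ ω, B ω → |F.x ω (c i) - eval (Pool.GEN.bt F ω) (G₂ (Pool.PB.ptr F J ω))| ≤ 1 / 2 ^ p) →
    (∀ ω, B ω → ∀ b, Pool.GEN.NBx c (G (Pool.PB.ptr F J ω)) gc a (F.t ω) i b →
      |eval b (G₂ (Pool.PB.ptr F J ω)) - eval b (Ht (Pool.KSAT.slam F w ω))| ≤ α) →
    (∀ ω, B ω → ∀ b, Pool.GEN.NBx c (G (Pool.PB.ptr F J ω)) gc a (F.t ω) i b →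
      |eval b (G₂ (Pool.PB.ptr F J ω)) - eval b (H₁ (Pool.KSAT.slam F w ω))| ≤ M) →
    (∀ ω, B ω → ∀ b, Pool.GEN.NBx c (G (Pool.PB.ptr F J ω)) gc a (F.t ω) i b → ∀ l < i,
      |eval b (pderiv (some (c l)) (H₁ (Pool.KSAT.slam F w ω)))| ≤
        2 ^ (e + Pool.W.GEN.nlp (fun j => if j < i then gc j else p) l i)) →
    0 ≤ M → p' ≤ p → e + 1 ≤ e' → α ≤ 1 / 2 ^ p' → 2 * C₀ * M * 2 ^ (e + p') ≤ 2 ^ e' →
    Pool.W.NLB46.Lab F c i D₂ (a + 1) w e' p' gc G B G₂ Ht := by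
  obtain ⟨C₀, hC₀, hgr⟩ := Pool.W.END18.grad_box i Dc D₁
  refine ⟨C₀, hC₀, ?_⟩
  intro m J F c gc a w w' e e' p p' D₂ B G H G₂ H₁ Ht α M hc htop dG pG dH pH dT pT hD hpos hagr hnr
    hgrd hM0 hp he h1 h2
  refine ⟨fun y => (dG y).trans hD, dT, pG, pT, fun ω hω => (hpos ω hω).trans (Pool.PB.inv_mono hp),
    fun ω hω b hb => (hagr ω hω b (hb.mono (by omega) le_rfl)).trans h1,
    fun ω hω b hb l hl => ?_⟩
  have hb' := hb.mono (a := a) (by omega) le_rfl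
  -- the box around `b`
  have hbig : ∀ b', Pool.GEN.NBx c (G (Pool.PB.ptr F J ω)) gc (a + 1) (b none) i b' →
      Pool.GEN.NBx c (G (Pool.PB.ptr F J ω)) gc a (F.t ω) i b' := by
    intro b' hb2
    refine ⟨?_, hb2.2⟩
    have e1 : b' none - F.t ω = (b' none - b none) + (b none - F.t ω) := by ring
    rw [e1]
    refine (abs_add_le _ _).trans ((add_le_add hb2.1 hb.1).trans (le_of_eq ?_))
    rw [pow_succ]
    field_simp
    ring
  have hsm : ∀ b', Pool.GEN.NBx c (G (Pool.PB.ptr F J ω)) gc (a + 1) (b none) i b' →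
      |eval b' (G₂ (Pool.PB.ptr F J ω) - H₁ (Pool.KSAT.slam F w ω))| ≤ M := by
    intro b' hb2
    rw [map_sub]
    exact hnr ω hω b' (hbig b' hb2)
  have hdep : Pool.GEN.DepC c i (G₂ (Pool.PB.ptr F J ω) - H₁ (Pool.KSAT.slam F w ω)) := by
    intro b b' hn hb'
    rw [map_sub, map_sub, pG _ b b' hn hb', pH _ b b' hn hb']
  have hdeg : (G₂ (Pool.PB.ptr F J ω) - H₁ (Pool.KSAT.slam F w ω)).totalDegree ≤ D₁ :=
    (totalDegree_sub _ _).trans (max_le (dG _) (dH _))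
  have g1 := hgr (e := e) hc (htop.degG _) (htop.depG _) hdep hdeg hM0 hsm hb.2
    (fun j hj k hk => htop.lip ω hω j hj b (hb'.mono le_rfl hj.le) k hk) l hl
  have g2 := hgrd ω hω b hb' l hl
  obtain ⟨S, hS⟩ : ∃ S, S = (Finset.range i).sup gc := ⟨_, rfl⟩
  rw [← hS] at g1
  have hn : ∀ x : ℕ, Pool.W.GEN.nlp (fun j => if j < i then gc j else x) l i = max S x - x := by
    intro x
    unfold Pool.W.GEN.nlp
    have e1 : (Finset.range (i + 1)).sup (fun j => if j < i then gc j else x) = max S x := by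
      apply le_antisymm
      · refine Finset.sup_le fun j hj => ?_
        rw [Finset.mem_range] at hj
        show (if j < i then gc j else x) ≤ _
        split_ifs with hjd
        · refine le_trans ?_ (le_max_left _ _)
          rw [hS]
          exact Finset.le_sup (f := gc) (Finset.mem_range.2 (by omega))
        · exact le_max_right _ _
      · refine max_le ?_ ?_
        · rw [hS]
          refine Finset.sup_le fun j hj => ?_
          rw [Finset.mem_range] at hj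
          have := Finset.le_sup (f := fun j => if j < i then gc j else x)
            (Finset.mem_range.2 (show j < i + 1 by omega))
          simp only [if_pos (show j < i by omega)] at this
          exact this
        · have := Finset.le_sup (f := fun j => if j < i then gc j else x)
            (Finset.mem_range.2 (show i < i + 1 by omega))
          simp only [if_neg (lt_irrefl i)] at this
          exact this
    simp only [e1, if_neg (lt_irrefl i)]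
  rw [hn p] at g2
  rw [hn p']
  have e1 : pderiv (some (c l)) (G₂ (Pool.PB.ptr F J ω)) =
      pderiv (some (c l)) (G₂ (Pool.PB.ptr F J ω) - H₁ (Pool.KSAT.slam F w ω)) +
        pderiv (some (c l)) (H₁ (Pool.KSAT.slam F w ω)) := by
    rw [map_sub]
    ring
  rw [e1, map_add]
  refine (abs_add_le _ _).trans ((add_le_add g1 g2).trans ?_)
  obtain ⟨v, hv⟩ : ∃ v, v = max S p' - p' := ⟨_, rfl⟩
  rw [← hv]
  have k1 : (2 : ℝ) ^ (e + (max S p - p)) ≤ 2 ^ (e' + v) / 2 := by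
    rw [le_div_iff₀ (by norm_num), ← pow_succ]
    refine pow_le_pow_right₀ (by norm_num) ?_
    omega
  have k2 : C₀ * M * 2 ^ (e + S) ≤ 2 ^ (e' + v) / 2 := by
    have k4 : 2 * (C₀ * M * 2 ^ e) * 2 ^ p' ≤ 2 ^ e' := by
      refine le_trans (le_of_eq ?_) h2
      rw [pow_add]
      ring
    have k5 : (2 : ℝ) ^ S ≤ 2 ^ p' * 2 ^ v := by
      rw [← pow_add]
      refine pow_le_pow_right₀ (by norm_num) ?_
      omega
    have k6 : 0 ≤ C₀ * M * 2 ^ e := by positivity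
    calc C₀ * M * 2 ^ (e + S) = C₀ * M * 2 ^ e * 2 ^ S := by rw [pow_add]; ring
      _ ≤ C₀ * M * 2 ^ e * (2 ^ p' * 2 ^ v) := mul_le_mul_of_nonneg_left k5 k6
      _ = 2 * (C₀ * M * 2 ^ e) * 2 ^ p' * (2 ^ v / 2) := by ring
      _ ≤ 2 ^ e' * (2 ^ v / 2) := mul_le_mul_of_nonneg_right k4 (by positivity)
      _ = 2 ^ (e' + v) / 2 := by rw [pow_add]; ring
  linarith


section adU

variable {c : ℕ → Fin m} {d Dc D₁ : ℕ} {σ : Type} {Cp Gu G₂ : σ → MvPolynomial (Option (Fin m)) ℝ}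


end adU

/-- The chain, closed on the window `w`. -/
theorem EN.chn {F : Pool.KA.Fam m J} {c : ℕ → Fin m} {s gc : ℕ → ℕ} {d Dc w q₀ Q e X : ℕ}
    {A : F.Ω → Prop} {G₀ : Pool.GEN.PtT F → ℕ → MvPolynomial (Option (Fin m)) ℝ}
    {G₂ : Pool.GEN.PtT F → MvPolynomial (Option (Fin m)) ℝ}
    {H₀ : Pool.GEN.LnT F → ℕ → MvPolynomial (Option (Fin m)) ℝ}
    {H₁ H₂ : Pool.GEN.LnT F → MvPolynomial (Option (Fin m)) ℝ} {z₀ z₁ : Pool.GEN.LnT F → Fin d → ℝ}
    (h : Pool.W.END18.EN F c s gc d Dc w q₀ Q e X A G₀ G₂ H₀ H₁ H₂ z₀ z₁) :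
    Pool.W.GEN.ChOK F c d (fun _ => Dc) (w + Q) w e gc A (Pool.END18.Gf F c G₀) (fun L l => Pool.END18.Hf F c H₀ (Pool.D2R.co q₀ L) l) := by
  have hwJ : w ≤ J := (Nat.le_add_right w Q).trans h.wQ
  have hco : ∀ ω, Pool.D2R.co q₀ (Pool.KSAT.slam F w ω) = Pool.KSAT.slam F (w - q₀) ω := by
    intro ω
    have := Pool.D2R.co_slam F (Nat.sub_le w q₀) hwJ ω
    rwa [Nat.sub_sub_self h.qw] at this
  have h3 := h.top
  refine ⟨h3.degG, fun L i => h3.degH _ i, h3.depG, fun L i => h3.depH _ i, h3.pos,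
    fun ω hω i hi b hb => ?_, h3.lip⟩
  rw [hco]
  exact h3.agr ω hω i hi b hb

theorem chok_rad {F : Pool.KA.Fam m J} {c : ℕ → Fin m} {i a w e e' : ℕ} {Kv g : ℕ → ℕ} {A B : F.Ω → Prop}
    {G : Pool.GEN.PtT F → ℕ → MvPolynomial (Option (Fin m)) ℝ}
    {H : Pool.GEN.LnT F → ℕ → MvPolynomial (Option (Fin m)) ℝ} (h : Pool.W.GEN.ChOK F c i Kv a w e g A G H)
    (hB : Pool.K2S.Sub B A) (he : e ≤ e') : Pool.W.GEN.ChOK F c i Kv (a + 1) w e' g B G H :=
  ⟨h.degG, h.degH, h.depG, h.depH, fun ω hω => h.pos ω (hB ω hω),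
    fun ω hω i hi b hb => h.agr ω (hB ω hω) i hi b (hb.mono (by omega) le_rfl),
    fun ω hω i hi b hb l hl => (h.lip ω (hB ω hω) i hi b (hb.mono (by omega) le_rfl) l hl).trans
      (pow_le_pow_right₀ (by norm_num) (by omega))⟩


end Pool.W.END18
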